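import Pool.Agent.Helper9.FL.Stm
import Pool.Agent.Helper9.GR.Plu
import Pool.Agent.Helper63.PP.VaBase

/-!
Project FL (helper9), package UP: restriction of the very ampleness to the flags.
-/

set_option autoImplicit false
set_option linter.unusedSectionVars false

namespace Pool.Agent.Helper1.FL

open FF Module MvPolynomial Pool.Agent.Helper9.FJ Pool.Agent.Helper9.PP Pool.Agent.Helper9.GR
  Pool.Agent.Helper9.FL Pool.Agent.Helper63.PP

section lin

variable {k r : ℕ}

/-- the first columns of an invertible matrix have a minor different from zero -/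
theorem plu_fc_ne {F : Type} [Field F] (hk : k < r) {Ξ : Matrix (Fin r) (Fin r) F}
    (h : Ξ.det ≠ 0) : plu (fc k Ξ) ≠ 0 := by
  intro h0
  have h1 : (Matrix.of (fun (c : Fin k) (i : Fin r) => Ξ⁻¹ ⟨c, c.2.trans hk⟩ i)) * fc k Ξ =
      (1 : Matrix (Fin k) (Fin k) F) := by
    ext c d
    have h2 : (Ξ⁻¹ * Ξ) ⟨c, c.2.trans hk⟩ ⟨d, d.2.trans hk⟩ =
        (1 : Matrix (Fin r) (Fin r) F) ⟨c, c.2.trans hk⟩ ⟨d, d.2.trans hk⟩ := by
      rw [Matrix.nonsing_inv_mul _ (isUnit_iff_ne_zero.2 h)]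
    rw [Matrix.mul_apply] at h2 ⊢
    have h3 : ∀ i, fc k Ξ i d = Ξ i ⟨d, d.2.trans hk⟩ := by
      intro i
      rw [fc, Matrix.of_apply, dif_pos (d.2.trans hk)]
    simp only [h3, Matrix.of_apply]
    rw [h2, Matrix.one_apply, Matrix.one_apply]
    simp only [Fin.ext_iff]
  have h4 := congrArg Matrix.det h1
  rw [cauchyBinet, h0, Matrix.det_one] at h4
  simp at h4

theorem fc_map {F G : Type} [CommRing F] [CommRing G] (f : F →+* G)
    (Ξ : Matrix (Fin r) (Fin r) F) : fc k (Ξ.map f) = (fc k Ξ).map f := by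
  ext i c
  rw [Matrix.map_apply, fc, fc, Matrix.of_apply, Matrix.of_apply]
  split_ifs
  · rfl
  · rw [map_zero]

theorem fc_add {F : Type} [CommRing F] (Ξ H : Matrix (Fin r) (Fin r) F) :
    fc k (Ξ + H) = fc k Ξ + fc k H := by
  ext i c
  rw [Matrix.add_apply, fc, fc, fc, Matrix.of_apply, Matrix.of_apply, Matrix.of_apply]
  split_ifs
  · rfl
  · rw [add_zero]

theorem fc_smul {F : Type} [CommRing F] (t : F) (H : Matrix (Fin r) (Fin r) F) :
    fc k (t • H) = t • fc k H := by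
  ext i c
  rw [Matrix.smul_apply, fc, fc, Matrix.of_apply, Matrix.of_apply]
  split_ifs
  · rfl
  · rw [smul_zero]

end lin

section ge

variable {K : Type} [Field K] [Algebra ℂ K] {P : Place ℂ K}

/-- the values of polynomials with constant coefficients at the uniformizer, modulo its square -/
theorem ge_aeval {t : K} (ht : Ge P 1 t) (p : Polynomial ℂ) : Ge P 0 (Polynomial.aeval t p) := by
  rw [Polynomial.aeval_eq_sum_range]
  refine Ge.sum _ fun i _ => ?_
  rw [Algebra.smul_def]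
  have := (ge_const (P := P) (p.coeff i)).mul ((ht.mono (by norm_num : (0 : ℤ) ≤ 1)).pow i)
  rwa [mul_zero, add_zero] at this

theorem ge_aeval_two {t : K} (ht : Ge P 1 t) (p : Polynomial ℂ) :
    Ge P 2 (Polynomial.aeval t p -
      (algebraMap ℂ K (p.coeff 0) + t * algebraMap ℂ K (p.coeff 1))) := by
  have h1 : Polynomial.aeval t p = (Polynomial.aeval t p.divX.divX * t +
      algebraMap ℂ K (p.coeff 1)) * t + algebraMap ℂ K (p.coeff 0) := by
    conv_lhs => rw [← Polynomial.divX_mul_X_add p, ← Polynomial.divX_mul_X_add p.divX]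
    rw [map_add, map_mul, map_add, map_mul, Polynomial.aeval_X, Polynomial.aeval_C,
      Polynomial.aeval_C, Polynomial.coeff_divX]
  rw [h1]
  have h2 : (Polynomial.aeval t p.divX.divX * t + algebraMap ℂ K (p.coeff 1)) * t +
      algebraMap ℂ K (p.coeff 0) - (algebraMap ℂ K (p.coeff 0) + t * algebraMap ℂ K (p.coeff 1)) =
        Polynomial.aeval t p.divX.divX * (t * t) := by ring
  rw [h2]
  have := (ge_aeval ht p.divX.divX).mul (ht.mul ht)
  exact this.mono (by norm_num)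

theorem ge_pow_sub' {x y : K} {c : ℤ} (hx : Ge P 0 x) (hy : Ge P 0 y) (h : Ge P c (x - y))
    (n : ℕ) : Ge P c (x ^ n - y ^ n) := by
  induction n with
  | zero => rw [pow_zero, pow_zero, sub_self]; exact ge_zero
  | succ n ih =>
    have h1 : x ^ (n + 1) - y ^ (n + 1) = x ^ n * (x - y) + (x ^ n - y ^ n) * y := by ring
    rw [h1]
    have h2 : Ge P 0 (x ^ n) := by
      have := hx.pow n
      rwa [mul_zero] at this
    have h3 := h2.mul h
    have h4 := ih.mul hy
    rw [zero_add] at h3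
    rw [add_zero] at h4
    exact h3.add h4

theorem ge_prod_sub' {ι : Type*} (S : Finset ι) {x y : ι → K} {c : ℤ} (hx : ∀ i, Ge P 0 (x i))
    (hy : ∀ i, Ge P 0 (y i)) (h : ∀ i, Ge P c (x i - y i)) :
    Ge P c (∏ i ∈ S, x i - ∏ i ∈ S, y i) := by
  classical
  induction S using Finset.induction_on with
  | empty => rw [Finset.prod_empty, Finset.prod_empty, sub_self]; exact ge_zero
  | insert a S ha ih =>
    rw [Finset.prod_insert ha, Finset.prod_insert ha]
    have h1 : x a * ∏ i ∈ S, x i - y a * ∏ i ∈ S, y i =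
        x a * (∏ i ∈ S, x i - ∏ i ∈ S, y i) + (x a - y a) * ∏ i ∈ S, y i := by ring
    rw [h1]
    have h3 := (hx a).mul ih
    have h4 := (h a).mul (Ge.prod0 S fun i _ => hy i)
    rw [zero_add] at h3
    rw [add_zero] at h4
    exact h3.add h4

/-- congruent points -/
theorem cg_eval_sub {σ : Type} [Fintype σ] [DecidableEq σ] {c e : ℤ} {s : MvPolynomial σ K}
    (h : CG P c s) {z z' : σ → K} (hz : ∀ j, Ge P 0 (z j)) (hz' : ∀ j, Ge P 0 (z' j))
    (hzz : ∀ j, Ge P e (z j - z' j)) :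
    Ge P (c + e) (MvPolynomial.eval z s - MvPolynomial.eval z' s) := by
  rw [eval_eq', eval_eq', ← Finset.sum_sub_distrib]
  refine Ge.sum _ fun α _ => ?_
  rw [← mul_sub]
  refine (h α).mul ?_
  have h1 : ∀ x : K, ∀ n : ℕ, Ge P 0 x → Ge P 0 (x ^ n) := fun x n hx => by
    have := hx.pow n
    rwa [mul_zero] at this
  exact ge_prod_sub' _ (fun i => h1 _ _ (hz i)) (fun i => h1 _ _ (hz' i))
    fun i => ge_pow_sub' (hz i) (hz' i) (hzz i) _

/-- the minors of `Ξ + t H` modulo `t²` -/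
theorem ge_plu {k r : ℕ} {t : K} (ht : Ge P 1 t) (Ξ H : Matrix (Fin r) (Fin k) ℂ)
    (i : Fin (Rk k r)) : Ge P 2 (plu (cm Ξ + t • cm H : Matrix (Fin r) (Fin k) K) i -
      (algebraMap ℂ K (plu Ξ i) + t * algebraMap ℂ K (dplu Ξ H i))) := by
  obtain ⟨p, hp⟩ : ∃ p, p = plu (Ξ.map Polynomial.C +
    (Polynomial.X : Polynomial ℂ) • H.map Polynomial.C) i := ⟨_, rfl⟩
  have h1 : plu (cm Ξ + t • cm H : Matrix (Fin r) (Fin k) K) i = Polynomial.aeval t p := by
    have h2 := congrFun (plu_map ((Polynomial.aeval t : Polynomial ℂ →ₐ[ℂ] K) : Polynomial ℂ →+* K)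
      (Ξ.map Polynomial.C + (Polynomial.X : Polynomial ℂ) • H.map Polynomial.C)) i
    have h3 : (Ξ.map Polynomial.C + (Polynomial.X : Polynomial ℂ) • H.map Polynomial.C).map
        ((Polynomial.aeval t : Polynomial ℂ →ₐ[ℂ] K) : Polynomial ℂ →+* K) =
          (cm Ξ + t • cm H : Matrix (Fin r) (Fin k) K) := by
      ext a b
      simp [cm, Matrix.map_apply, Matrix.add_apply, Matrix.smul_apply]
      exact mul_comm _ _
    rw [h3] at h2
    rw [h2, hp]
    rfl
  have h4 : plu Ξ i = p.coeff 0 := by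
    have h2 := congrFun (plu_map (Polynomial.evalRingHom (0 : ℂ))
      (Ξ.map Polynomial.C + (Polynomial.X : Polynomial ℂ) • H.map Polynomial.C)) i
    have h3 : (Ξ.map Polynomial.C + (Polynomial.X : Polynomial ℂ) • H.map Polynomial.C).map
        (Polynomial.evalRingHom (0 : ℂ)) = Ξ := by
      ext a b
      simp [Matrix.map_apply, Matrix.add_apply, Matrix.smul_apply]
    rw [h3] at h2
    rw [h2, hp, Polynomial.coeff_zero_eq_eval_zero]
    rfl
  have h5 : dplu Ξ H i = p.coeff 1 := by rw [hp]; rfl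
  rw [h1, h4, h5]
  exact ge_aeval_two ht p

end ge

/-- **Package UP.** -/
theorem up : S_UP := by
  intro K _ _ _ r l k hk0 hkr E a N hVA
  obtain ⟨h1, h2, h3, h4⟩ := hVA
  have hpl : ∀ (P : Place ℂ K) (Ξ : Matrix (Fin r) (Fin r) ℂ),
      plF k E P (Ξ.map (algebraMap ℂ K)) =
        ptM (fun j => wedge (k j) E) P (fun j => plu (fc (k j) Ξ)) := by
    intro P Ξ
    funext x
    rw [plF, fc_map, ptM]
    exact congrFun (plp_cm E P (fc (k x.1) Ξ)) x.2
  refine ⟨fun P Ξ hΞ => ?_, fun P Q Ξ Θ hΞ hΘ hPQ => ?_, fun P t Ξ H ht hΞ => ?_,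
    fun P Ξ H hΞ hH => ?_⟩
  · obtain ⟨s, hs, hs1⟩ := h1 P (fun j => plu (fc (k j) Ξ)) (fun j => plu_fc_ne (hkr j) hΞ)
    exact ⟨s, hs, by rwa [hpl]⟩
  · obtain ⟨s, hs, hs1, hs2⟩ := h2 P Q (fun j => plu (fc (k j) Ξ)) (fun j => plu (fc (k j) Θ))
      (fun j => plu_fc_ne (hkr j) hΞ) (fun j => plu_fc_ne (hkr j) hΘ) (by
        intro hP
        obtain ⟨j, hj⟩ := hPQ hP
        refine ⟨j, ?_⟩
        rintro ⟨c, hc⟩
        exact hj (exists_mul_of_plu (plu_fc_ne (hkr j) hΞ) (plu_fc_ne (hkr j) hΘ) hc))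
    exact ⟨s, hs, by rwa [hpl], by rwa [hpl]⟩
  · have htge : Ge P 1 t := Or.inr ht.ge
    obtain ⟨s, hs, hs1, hs2⟩ := h3 P t (fun j => plu (fc (k j) Ξ))
      (fun j => dplu (fc (k j) Ξ) (fc (k j) H)) ht (fun j => plu_fc_ne (hkr j) hΞ)
    refine ⟨s, hs, by rwa [hpl], fun hcon => hs2 ?_⟩
    obtain ⟨z, hz⟩ : ∃ z : Vr (fun j => Rk (k j) r) → K, z = fun x =>
      plu (cm (fc (k x.1) Ξ) + t • cm (fc (k x.1) H) : Matrix (Fin r) (Fin (k x.1)) K) x.2 :=
        ⟨_, rfl⟩
    obtain ⟨z', hz'⟩ : ∃ z' : Vr (fun j => Rk (k j) r) → K, z' =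
      kc (fun j => plu (fc (k j) Ξ)) + t • kc (fun j => dplu (fc (k j) Ξ) (fc (k j) H)) :=
        ⟨_, rfl⟩
    have e1 : plF k E P (Ξ.map (algebraMap ℂ K) + t • H.map (algebraMap ℂ K)) =
        iv (fun j => wedge (k j) E) P z := by
      funext x
      rw [plF, fc_add, fc_smul, fc_map, fc_map, hz]
      rfl
    have e2 : ptM (fun j => wedge (k j) E) P (fun j => plu (fc (k j) Ξ)) +
        t • ptM (fun j => wedge (k j) E) P (fun j => dplu (fc (k j) Ξ) (fc (k j) H)) =
          iv (fun j => wedge (k j) E) P z' := by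
      rw [hz', iv_add, iv_smul, ptM_eq, ptM_eq]
    have hz'ge : ∀ x, Ge P 0 (z' x) := by
      intro x
      rw [hz']
      have h4 := htge.mul (ge_kc (P := P) (fun j => dplu (fc (k j) Ξ) (fc (k j) H)) x)
      exact (ge_kc _ x).add (h4.mono (by norm_num))
    have hsub : ∀ x, Ge P 2 (z x - z' x) := by
      intro x
      rw [hz, hz']
      exact ge_plu htge (fc (k x.1) Ξ) (fc (k x.1) H) x.2
    have hzge : ∀ x, Ge P 0 (z x) := by
      intro x
      have h5 := ((hsub x).mono (by norm_num : (0 : ℤ) ≤ 2)).add (hz'ge x)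
      rwa [sub_add_cancel] at h5
    rw [e1, ← eval_locM] at hcon
    rw [e2, ← eval_locM]
    have h6 : CG P (-N P) (locM (fun j => wedge (k j) E) P s) := hs.2 P
    have h7 := cg_eval_sub h6 hzge hz'ge hsub
    have h8 := hcon.sub (h7.mono (by omega : 2 - N P ≤ -N P + 2))
    rwa [sub_sub_cancel] at h8
  · obtain ⟨s, hs, hs1, hs2⟩ := h4 P (fun j => plu (fc (k j) Ξ))
      (fun j => dplu (fc (k j) Ξ) (fc (k j) H)) (fun j => plu_fc_ne (hkr j) hΞ) (by
        obtain ⟨j, hj⟩ := hH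
        refine ⟨j, ?_⟩
        rintro ⟨c, hc⟩
        exact hj (exists_mul_of_dplu (plu_fc_ne (hkr j) hΞ) hc))
    refine ⟨s, hs, by rwa [hpl], ?_⟩
    rw [hpl]
    exact hs2

end Pool.Agent.Helper1.FL
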